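import Pool.Agent.AT6.Stmts1

/-!
# Squad AT6, row CNB: congruences for an element of the group ring which commutes with `w`
-/

open scoped BigOperators

noncomputable section

namespace Pool.Agent.PP.T6.H62

open Pool.Agent.Helper51_AWC Pool.Agent.Helper79_WRA Pool.Agent.PP Pool.Agent.PP.KF
open Pool.Agent.PP.K9 Pool.Agent.PP.K9.H97 Pool.Agent.PP.H75 Pool.Agent.PP.T3 Pool.Agent.PP.T2
open Pool.Agent.PP.T6

attribute [local instance] Ideal.Quotient.field

/-- a function which is invariant under the conjugation with `w` is invariant under the conjugation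
with all powers of `w` -/
theorem inv_zpowers {G A : Type} [Group G] (a : G → A) {w : G} (h : ∀ x, a (w * x * w⁻¹) = a x)
    {d : G} (hd : d ∈ Subgroup.zpowers w) (x : G) : a (d * x * d⁻¹) = a x := by
  obtain ⟨n, rfl⟩ := Subgroup.mem_zpowers_iff.1 hd
  have h1 : ∀ (n : ℕ) (x : G), a (w ^ n * x * (w ^ n)⁻¹) = a x := by
    intro n
    induction n with
    | zero =>
      intro x
      simp
    | succ n ih =>
      intro x
      have e : w ^ (n + 1) * x * (w ^ (n + 1))⁻¹ = w * (w ^ n * x * (w ^ n)⁻¹) * w⁻¹ := by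
        rw [pow_succ']
        group
      rw [e, h, ih]
  rcases Int.eq_nat_or_neg n with ⟨m, rfl | rfl⟩
  · rw [zpow_natCast]
    exact h1 m x
  · have h2 := h1 m ((w ^ m)⁻¹ * x * w ^ m)
    have e : w ^ m * ((w ^ m)⁻¹ * x * w ^ m) * (w ^ m)⁻¹ = x := by group
    rw [e] at h2
    rw [zpow_neg, zpow_natCast, inv_inv]
    exact h2.symm

theorem cnb (hobz : ObzStmt) : CnbStmt := by
  intro ℓ hℓ M _ G _ _ θ hθ a ha w k hw hwk haw c
  classical
  have := Fintype.ofFinite G
  have hpr : ℓ.Prime := Fact.out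
  set D : Subgroup G := Subgroup.zpowers w with hD
  set z : G := w ^ ℓ ^ (c + 1) with hz
  set F : G → ℂ := fun x => a x * (θ (k * z * x) - θ (k * x)) with hF
  have hFR : ∀ x, F x ∈ RM M := fun x =>
    (RM M).mul_mem (ha x) ((RM M).sub_mem (hθ.rm _) (hθ.rm _))
  have hdk : ∀ d ∈ D, d * k = k * d := by
    intro d hd
    obtain ⟨n, rfl⟩ := Subgroup.mem_zpowers_iff.1 hd
    exact (Commute.zpow_left (show Commute w k from hwk) n).eq
  have hdd : ∀ d ∈ D, ∀ d' ∈ D, d * d' = d' * d := by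
    intro d hd d' hd'
    obtain ⟨n, rfl⟩ := Subgroup.mem_zpowers_iff.1 hd
    obtain ⟨m, rfl⟩ := Subgroup.mem_zpowers_iff.1 hd'
    exact (Commute.zpow_zpow_self w n m).eq
  have hzD : z ∈ D := Subgroup.pow_mem _ (Subgroup.mem_zpowers w) _
  have hinv : ∀ d ∈ D, ∀ x, F (d * x * d⁻¹) = F x := by
    intro d hd x
    have e1 : k * z * (d * x * d⁻¹) = d * (k * z * x) * d⁻¹ := by
      have e2 : d * (k * z) = k * z * d := by
        rw [← mul_assoc, hdk d hd, mul_assoc, hdd d hd z hzD, mul_assoc]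
      calc k * z * (d * x * d⁻¹) = k * z * d * x * d⁻¹ := by group
        _ = d * (k * z) * x * d⁻¹ := by rw [e2]
        _ = d * (k * z * x) * d⁻¹ := by group
    have e3 : k * (d * x * d⁻¹) = d * (k * x) * d⁻¹ := by
      calc k * (d * x * d⁻¹) = k * d * x * d⁻¹ := by group
        _ = d * k * x * d⁻¹ := by rw [hdk d hd]
        _ = d * (k * x) * d⁻¹ := by group
    simp only [hF]
    rw [inv_zpowers a haw hd x, e1, e3, hθ.cl, hθ.cl]
  have key := hobz M G D Set.univ (fun _ _ _ _ => Set.mem_univ _) F hinv ((ℓ : ℂ) ^ c) (by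
    intro x _
    -- the index
    obtain ⟨N, hN⟩ := hw
    have hDp : IsPGroup ℓ D := by
      intro d
      obtain ⟨n, hn⟩ := Subgroup.mem_zpowers_iff.1 d.2
      refine ⟨N, Subtype.ext ?_⟩
      change (d : G) ^ ℓ ^ N = 1
      rw [← hn, ← zpow_natCast, ← zpow_mul, mul_comm, zpow_mul, zpow_natCast, hN, one_zpow]
    set K : Subgroup D := (D ⊓ Cu x).subgroupOf D with hK
    have hKn : K.Normal := by
      refine ⟨fun n hn g => ?_⟩
      have e : g * n * g⁻¹ = n := by
        apply Subtype.ext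
        change (g : G) * n * (g : G)⁻¹ = n
        rw [hdd g g.2 n n.2, mul_inv_cancel_right]
      rw [e]
      exact hn
    obtain ⟨p, hp⟩ := hDp.index K
    have hp' : (D ⊓ Cu x).relIndex D = ℓ ^ p := hp
    have hwx : w ^ ℓ ^ p ∈ Cu x := by
      have h1 := Subgroup.pow_index_mem K (⟨w, Subgroup.mem_zpowers w⟩ : D)
      rw [hp, hK, Subgroup.mem_subgroupOf] at h1
      exact h1.2
    have hwx' : w ^ ℓ ^ p * x = x * w ^ ℓ ^ p := Subgroup.mem_centralizer_singleton_iff.1 hwx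
    rw [hp']
    rcases le_or_gt c p with hcp | hcp
    · refine ⟨((ℓ ^ (p - c) : ℕ) : ℂ) * F x, (RM M).mul_mem (natCast_mem (RM M) _) (hFR x), ?_⟩
      have e : ((ℓ ^ p : ℕ) : ℂ) = (ℓ : ℂ) ^ c * ((ℓ ^ (p - c) : ℕ) : ℂ) := by
        push_cast
        rw [← pow_add, Nat.add_sub_cancel' hcp]
      rw [e, mul_assoc]
    · have hzw : z = (w ^ ℓ ^ p) ^ ℓ ^ (c - p + 1) := by
        rw [hz, ← pow_mul, ← pow_add]
        congr 2
        omega
      have hzx : k * z * x = k * x * (w ^ ℓ ^ p) ^ ℓ ^ (c - p + 1) := by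
        rw [hzw, mul_assoc, mul_assoc]
        congr 1
        exact (Commute.pow_left (show Commute (w ^ ℓ ^ p) x from hwx') _).eq
      have hel : El ℓ (w ^ ℓ ^ p) := ⟨N, by rw [← pow_mul, mul_comm, pow_mul, hN, one_pow]⟩
      have hcomm : w ^ ℓ ^ p * (k * x) = k * x * w ^ ℓ ^ p := by
        have h1 : w ^ ℓ ^ p * k = k * w ^ ℓ ^ p :=
          hdk _ (Subgroup.pow_mem _ (Subgroup.mem_zpowers w) _)
        rw [← mul_assoc, h1, mul_assoc, hwx', mul_assoc]
      obtain ⟨t, ht, h2⟩ := hθ.cg (k * x) (w ^ ℓ ^ p) hel hcomm (c - p)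
      refine ⟨a x * t, (RM M).mul_mem (ha x) ht, ?_⟩
      have e : (ℓ : ℂ) ^ c = (ℓ : ℂ) ^ p * (ℓ : ℂ) ^ (c - p) := by
        rw [← pow_add, Nat.add_sub_cancel' hcp.le]
      simp only [hF]
      rw [hzx, h2, e]
      push_cast
      ring)
  rw [finsum_mem_univ] at key
  have e : T8.fv a (k * z) θ - T8.fv a k θ = ∑ᶠ x, F x := by
    unfold T8.fv
    rw [finsum_eq_sum_of_fintype, finsum_eq_sum_of_fintype, finsum_eq_sum_of_fintype,
      ← Finset.sum_sub_distrib]
    refine Finset.sum_congr rfl fun x _ => ?_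
    simp only [hF]
    ring
  rw [e]
  exact key

end Pool.Agent.PP.T6.H62
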